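import Pool.Agent.P8H64.GP.Stm2

/-!
Package SMALL of project GP (helper64).
-/

set_option autoImplicit false

namespace Pool.Agent.P8H93.GP

open MeasureTheory ProbabilityTheory Pool.Agent.P8H64.GP

lemma exp_le_sq (u : ℝ) : Real.exp u ≤ 1 + u + u ^ 2 * Real.exp (max u 0) := by
  rcases le_total 0 u with h | h
  · rw [max_eq_left h]
    have h1 : 1 - u ≤ Real.exp (-u) := by
      have := Real.add_one_le_exp (-u)
      linarith
    have h2 : (1 + u) * (1 - u) ≤ (1 + u) * Real.exp (-u) := mul_le_mul_of_nonneg_left h1 (by linarith)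
    have h3 : Real.exp u * Real.exp (-u) = 1 := by rw [← Real.exp_add]; simp
    have h4 := mul_le_mul_of_nonneg_left h2 (Real.exp_pos u).le
    have h5 : Real.exp u * ((1 + u) * Real.exp (-u)) = 1 + u := by
      calc Real.exp u * ((1 + u) * Real.exp (-u)) = (1 + u) * (Real.exp u * Real.exp (-u)) := by ring
        _ = 1 + u := by rw [h3, mul_one]
    rw [h5] at h4
    nlinarith
  · rw [max_eq_right h, Real.exp_zero, mul_one]
    have h1 : 1 - u ≤ Real.exp (-u) := by
      have := Real.add_one_le_exp (-u)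
      linarith
    have h3 : Real.exp u * Real.exp (-u) = 1 := by rw [← Real.exp_add]; simp
    have h4 : Real.exp u * (1 - u) ≤ 1 :=
      (mul_le_mul_of_nonneg_left h1 (Real.exp_pos u).le).trans h3.le
    have h5 : 1 ≤ (1 + u + u ^ 2) * (1 - u) := by
      have : (1 + u + u ^ 2) * (1 - u) = 1 - u ^ 3 := by ring
      rw [this]
      have h6 : u ^ 3 ≤ 0 := by
        have : u ^ 3 = u * u ^ 2 := by ring
        rw [this]
        exact mul_nonpos_of_nonpos_of_nonneg h (sq_nonneg u)
      linarith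
    have h6 : 0 < 1 - u := by linarith
    exact le_of_mul_le_mul_right (h4.trans h5) h6

lemma gauss_le : gaussianReal 0 1 ≤ (volume : Measure ℝ) := by
  rw [gaussianReal_of_var_ne_zero 0 one_ne_zero]
  have h1 : (volume : Measure ℝ).withDensity (gaussianPDF 0 1) ≤ (volume : Measure ℝ).withDensity 1 := by
    apply withDensity_mono
    refine Filter.Eventually.of_forall fun x => ?_
    show ENNReal.ofReal (gaussianPDFReal 0 1 x) ≤ 1
    rw [ENNReal.ofReal_le_one]
    unfold gaussianPDFReal
    have h2 : 1 ≤ Real.sqrt (2 * Real.pi * ((1 : NNReal) : ℝ)) := by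
      rw [Real.one_le_sqrt]
      have := Real.pi_gt_three
      push_cast
      linarith
    have h3 : (Real.sqrt (2 * Real.pi * ((1 : NNReal) : ℝ)))⁻¹ ≤ 1 := inv_le_one_of_one_le₀ h2
    have h4 : Real.exp (-(x - 0) ^ 2 / (2 * ((1 : NNReal) : ℝ))) ≤ 1 := by
      rw [Real.exp_le_one_iff]
      have : 0 ≤ (x - 0) ^ 2 := sq_nonneg _
      push_cast
      nlinarith
    exact mul_le_one₀ h3 (Real.exp_pos _).le h4
  rwa [withDensity_one] at h1

lemma neg_pow_int : Integrable (fun x : ℝ => |x| ^ (-(1 / 2) : ℝ)) (gaussianReal 0 1) := by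
  have hm : Measurable (fun x : ℝ => |x| ^ (-(1 / 2) : ℝ)) := by fun_prop
  have h0 : IntervalIntegrable (fun x : ℝ => |x| ^ (-(1 / 2) : ℝ)) volume 0 1 := by
    have h1 : IntervalIntegrable (fun x : ℝ => x ^ (-(1 / 2) : ℝ)) volume 0 1 :=
      intervalIntegral.intervalIntegrable_rpow' (by norm_num)
    rw [intervalIntegrable_iff_integrableOn_Ioc_of_le (by norm_num)] at h1 ⊢
    refine h1.congr_fun (fun x hx => ?_) measurableSet_Ioc
    simp only
    rw [abs_of_pos hx.1]
  have h1 : IntervalIntegrable (fun x : ℝ => |x| ^ (-(1 / 2) : ℝ)) volume (-1) 0 := by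
    have h2 := ((IntervalIntegrable.iff_comp_neg (by simp)).1 h0).symm
    simpa using h2
  have h2 := h1.trans h0
  rw [intervalIntegrable_iff_integrableOn_Ioc_of_le (by norm_num)] at h2
  have hin : IntegrableOn (fun x : ℝ => |x| ^ (-(1 / 2) : ℝ)) (Set.Ioc (-1) 1) (gaussianReal 0 1) :=
    Integrable.mono_measure h2 (Measure.restrict_mono le_rfl gauss_le)
  have hout : IntegrableOn (fun x : ℝ => |x| ^ (-(1 / 2) : ℝ)) (Set.Ioc (-1) 1)ᶜ (gaussianReal 0 1) := by
    refine Integrable.mono' (integrable_const (1 : ℝ)) hm.aestronglyMeasurable ?_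
    rw [ae_restrict_iff' measurableSet_Ioc.compl]
    refine Filter.Eventually.of_forall fun x hx => ?_
    have hx1 : 1 ≤ |x| := by
      rw [Set.mem_compl_iff, Set.mem_Ioc, not_and_or, not_lt, not_le] at hx
      rcases hx with h | h
      · rw [abs_of_nonpos (by linarith)]; linarith
      · rw [abs_of_pos (by linarith)]; linarith
    rw [Real.norm_eq_abs, abs_of_nonneg (Real.rpow_nonneg (abs_nonneg x) _)]
    exact Real.rpow_le_one_of_one_le_of_nonpos hx1 (by norm_num)
  have := hin.union hout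
  rwa [Set.union_compl_self, integrableOn_univ] at this

lemma four_int : Integrable (fun x : ℝ => |x| ^ (4 : ℝ)) (gaussianReal 0 1) := by
  have h1 := memLp_id_gaussianReal (μ := 0) (v := 1) 4
  have h2 := h1.integrable_norm_rpow (by norm_num) (by norm_num)
  refine h2.congr (Filter.Eventually.of_forall fun x => ?_)
  simp

/-- the logarithm has exponential moments -/
lemma exp_int (t : ℝ) (ht : t ≠ 0) (h : Integrable (fun x : ℝ => |x| ^ t) (gaussianReal 0 1)) :
    t ∈ integrableExpSet (fun x : ℝ => Real.log |x|) (gaussianReal 0 1) := by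
  have hm : Measurable (fun x : ℝ => Real.exp (t * Real.log |x|)) := by fun_prop
  refine Integrable.mono' (h.add (integrable_const (1 : ℝ))) hm.aestronglyMeasurable ?_
  refine Filter.Eventually.of_forall fun x => ?_
  rw [Real.norm_eq_abs, abs_of_pos (Real.exp_pos _)]
  show Real.exp (t * Real.log |x|) ≤ |x| ^ t + 1
  by_cases hx : x = 0
  · subst hx
    simp [Real.zero_rpow ht]
  · rw [Real.rpow_def_of_pos (abs_pos.2 hx), mul_comm]
    linarith

lemma mem_int (s : ℝ) (h1 : -(1 / 2) < s) (h2 : s < 4) :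
    s ∈ interior (integrableExpSet (fun x : ℝ => Real.log |x|) (gaussianReal 0 1)) := by
  have ha := exp_int _ (by norm_num) neg_pow_int
  have hb := exp_int _ (by norm_num) four_int
  have hc : Set.Icc (-(1 / 2) : ℝ) 4 ⊆ integrableExpSet (fun x : ℝ => Real.log |x|) (gaussianReal 0 1) :=
    (convex_integrableExpSet.ordConnected).out ha hb
  refine interior_mono hc ?_
  rw [interior_Icc]
  exact ⟨h1, h2⟩

theorem small : S_SMALL := by
  obtain ⟨m, hm⟩ : ∃ m : ℝ, m = ∫ x, Real.log |x| ∂(gaussianReal 0 1) := ⟨_, rfl⟩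
  obtain ⟨X, hX⟩ : ∃ X : ℝ → ℝ, X = fun x => Real.log |x| := ⟨_, rfl⟩
  have hint : ∀ (s : ℝ) (n : ℕ), -(1 / 2) < s → s < 4 →
      Integrable (fun x => X x ^ n * Real.exp (s * X x)) (gaussianReal 0 1) := by
    intro s n h1 h2
    rw [hX]
    exact integrable_pow_mul_exp_of_mem_interior_integrableExpSet (mem_int s h1 h2) n
  have hXi : Integrable X (gaussianReal 0 1) := by
    have := hint 0 1 (by norm_num) (by norm_num)
    simpa using this
  obtain ⟨H, hH⟩ : ∃ H : ℝ → ℝ, H = fun x => 4 * (X x - m) ^ 2 * (1 + Real.exp (2 * (X x - m))) := ⟨_, rfl⟩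
  have hHi : Integrable H (gaussianReal 0 1) := by
    have i1 := (hint 0 2 (by norm_num) (by norm_num)).const_mul 4
    have i2 := (hint 0 1 (by norm_num) (by norm_num)).const_mul (-8 * m)
    have i3 := (hint 0 0 (by norm_num) (by norm_num)).const_mul (4 * m ^ 2)
    have i4 := (hint 2 2 (by norm_num) (by norm_num)).const_mul (4 * Real.exp (-2 * m))
    have i5 := (hint 2 1 (by norm_num) (by norm_num)).const_mul (-8 * m * Real.exp (-2 * m))
    have i6 := (hint 2 0 (by norm_num) (by norm_num)).const_mul (4 * m ^ 2 * Real.exp (-2 * m))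
    refine (((((i1.add i2).add i3).add i4).add i5).add i6).congr (Filter.Eventually.of_forall fun x => ?_)
    rw [hH]
    have he : Real.exp (2 * (X x - m)) = Real.exp (-2 * m) * Real.exp (2 * X x) := by
      rw [← Real.exp_add]
      congr 1
      ring
    simp only [Pi.add_apply, zero_mul, Real.exp_zero]
    rw [he]
    ring
  have hH0 : ∀ x, 0 ≤ H x := by
    intro x
    rw [hH]
    positivity
  have hIH : 0 ≤ ∫ x, H x ∂(gaussianReal 0 1) := integral_nonneg hH0
  refine ⟨(∫ x, H x ∂(gaussianReal 0 1)) + 1, by linarith, fun τ h0 h1 => ?_⟩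
  rw [← hm]
  have hpt : ∀ x : ℝ, |x| ^ (2 * τ) ≤ Real.exp (2 * τ * m) * (1 + 2 * τ * (X x - m) + τ ^ 2 * H x) := by
    intro x
    have h2 : |x| ^ (2 * τ) ≤ Real.exp (2 * τ * X x) := by
      by_cases hx : x = 0
      · rw [hx, abs_zero, Real.zero_rpow (by linarith)]
        exact (Real.exp_pos _).le
      · rw [Real.rpow_def_of_pos (abs_pos.2 hx), hX, mul_comm]
    have h3 : Real.exp (2 * τ * X x) = Real.exp (2 * τ * m) * Real.exp (2 * τ * (X x - m)) := by
      rw [← Real.exp_add]
      congr 1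
      ring
    rw [h3] at h2
    refine h2.trans (mul_le_mul_of_nonneg_left ?_ (Real.exp_pos _).le)
    refine (exp_le_sq _).trans ?_
    have h4 : Real.exp (max (2 * τ * (X x - m)) 0) ≤ 1 + Real.exp (2 * (X x - m)) := by
      rcases le_total 0 (X x - m) with h | h
      · rw [max_eq_left (by positivity)]
        have : Real.exp (2 * τ * (X x - m)) ≤ Real.exp (2 * (X x - m)) := by
          apply Real.exp_le_exp.2
          nlinarith
        linarith
      · rw [max_eq_right (mul_nonpos_of_nonneg_of_nonpos (by positivity) h), Real.exp_zero]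
        linarith [Real.exp_pos (2 * (X x - m))]
    have h5 : (2 * τ * (X x - m)) ^ 2 * Real.exp (max (2 * τ * (X x - m)) 0) ≤ τ ^ 2 * H x := by
      rw [hH]
      calc (2 * τ * (X x - m)) ^ 2 * Real.exp (max (2 * τ * (X x - m)) 0)
          ≤ (2 * τ * (X x - m)) ^ 2 * (1 + Real.exp (2 * (X x - m))) :=
            mul_le_mul_of_nonneg_left h4 (sq_nonneg _)
        _ = τ ^ 2 * (4 * (X x - m) ^ 2 * (1 + Real.exp (2 * (X x - m)))) := by ring
    linarith
  have hg1 : Integrable (fun x => 1 + 2 * τ * (X x - m) + τ ^ 2 * H x) (gaussianReal 0 1) :=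
    ((integrable_const 1).add ((hXi.sub (integrable_const m)).const_mul (2 * τ))).add (hHi.const_mul (τ ^ 2))
  have hval : ∫ x, (1 + 2 * τ * (X x - m) + τ ^ 2 * H x) ∂(gaussianReal 0 1) =
      1 + τ ^ 2 * ∫ x, H x ∂(gaussianReal 0 1) := by
    have a1 : Integrable (fun x => 2 * τ * (X x - m)) (gaussianReal 0 1) :=
      (hXi.sub (integrable_const m)).const_mul (2 * τ)
    have a2 : Integrable (fun x => 1 + 2 * τ * (X x - m)) (gaussianReal 0 1) := (integrable_const 1).add a1
    have a3 : Integrable (fun x => τ ^ 2 * H x) (gaussianReal 0 1) := hHi.const_mul (τ ^ 2)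
    rw [integral_add a2 a3, integral_add (integrable_const 1) a1,
      integral_const_mul, integral_const_mul, integral_sub hXi (integrable_const m)]
    have h2 : ∫ x, X x ∂(gaussianReal 0 1) = m := by rw [hX, hm]
    rw [h2]
    simp
  calc ∫ x, |x| ^ (2 * τ) ∂(gaussianReal 0 1)
      ≤ ∫ x, Real.exp (2 * τ * m) * (1 + 2 * τ * (X x - m) + τ ^ 2 * H x) ∂(gaussianReal 0 1) :=
        integral_mono_of_nonneg (Filter.Eventually.of_forall fun x => Real.rpow_nonneg (abs_nonneg x) _)
          (hg1.const_mul _) (Filter.Eventually.of_forall hpt)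
    _ = Real.exp (2 * τ * m) * (1 + τ ^ 2 * ∫ x, H x ∂(gaussianReal 0 1)) := by
        rw [integral_const_mul, hval]
    _ ≤ Real.exp (2 * τ * m) * Real.exp (((∫ x, H x ∂(gaussianReal 0 1)) + 1) * τ ^ 2) := by
        refine mul_le_mul_of_nonneg_left ?_ (Real.exp_pos _).le
        have h2 := Real.add_one_le_exp (((∫ x, H x ∂(gaussianReal 0 1)) + 1) * τ ^ 2)
        have h3 : 0 ≤ τ ^ 2 := sq_nonneg τ
        nlinarith
    _ = Real.exp (2 * τ * m + ((∫ x, H x ∂(gaussianReal 0 1)) + 1) * τ ^ 2) := by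
        rw [← Real.exp_add]

end Pool.Agent.P8H93.GP
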